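import Pool.Agent.W164.MO.Defs

/-!
# MO-SY2: crossings
-/

set_option autoImplicit false

open Finset

namespace Pool.Agent.W402.MO

open Pool.Agent.W164.MO

lemma ll_le {ν : ℝ} (h0 : 0 < ν) (h1 : ν ≤ 1) (k₁ k : ℕ) : ll ν k₁ k ≤ k := by
  have hk : (0 : ℝ) ≤ k := Nat.cast_nonneg k
  unfold ll
  split_ifs
  · omega
  · apply Nat.floor_le_of_le
    nlinarith

lemma ll_lower {ν : ℝ} (h0 : 0 < ν) (k₁ k : ℕ) :
    (1 / 2 - ν / 1000) * (k : ℝ) - 1 ≤ (ll ν k₁ k : ℝ) := by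
  have hk : (0 : ℝ) ≤ k := Nat.cast_nonneg k
  unfold ll
  split_ifs
  · have h2 : 2 * k ≤ 3 * (2 * k / 3) + 2 := by omega
    have h3 : (2 : ℝ) * k ≤ 3 * ((2 * k / 3 : ℕ) : ℝ) + 2 := by exact_mod_cast h2
    nlinarith
  · exact (Nat.sub_one_lt_floor _).le

lemma ll_upper {ν : ℝ} (h1 : ν ≤ 1) {k₁ k : ℕ} (hk : k₁ ≤ k) :
    (ll ν k₁ k : ℝ) ≤ (1 / 2 - ν / 1000) * (k : ℝ) := by
  have hk' : (0 : ℝ) ≤ k := Nat.cast_nonneg k
  unfold ll
  rw [if_neg (by omega)]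
  apply Nat.floor_le
  nlinarith

lemma blk_low {k l j : ℕ} (hl : l ≤ k) (hj : j ∈ idx k l) : 2 ^ k ≤ j * 2 ^ l := by
  unfold idx at hj
  rw [mem_Ico] at hj
  calc 2 ^ k = 2 ^ (k - l) * 2 ^ l := by rw [← pow_add]; congr 1; omega
    _ ≤ j * 2 ^ l := Nat.mul_le_mul_right _ hj.1

lemma blk_up {k l j : ℕ} (hl : l ≤ k) (hj : j ∈ idx k l) : j * 2 ^ l + 2 ^ l ≤ 2 ^ (k + 1) := by
  unfold idx at hj
  rw [mem_Ico] at hj
  calc j * 2 ^ l + 2 ^ l = (j + 1) * 2 ^ l := by ring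
    _ ≤ 2 ^ (k - l + 1) * 2 ^ l := Nat.mul_le_mul_right _ hj.2
    _ = 2 ^ (k + 1) := by rw [← pow_add]; congr 1; omega

lemma blk_eq (l j : ℕ) : blk l j = Ico (j * 2 ^ l) (j * 2 ^ l + 2 ^ l) := by
  unfold blk
  congr 1
  ring

lemma mem_blk_self (l N : ℕ) : N ∈ blk l (N / 2 ^ l) := by
  unfold blk
  rw [mem_Ico]
  have h2 : 0 < 2 ^ l := by positivity
  constructor
  · exact Nat.div_mul_le_self N (2 ^ l)
  · have h3 := Nat.div_add_mod N (2 ^ l)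
    have h4 := Nat.mod_lt N h2
    rw [Nat.add_mul, one_mul, mul_comm (N / 2 ^ l)]
    omega

lemma mem_idx_self {l N : ℕ} (hN : N ≠ 0) (hl : l ≤ Nat.log 2 N) :
    N / 2 ^ l ∈ idx (Nat.log 2 N) l := by
  unfold idx
  rw [mem_Ico]
  have h2 : 0 < 2 ^ l := by positivity
  constructor
  · rw [Nat.le_div_iff_mul_le h2, ← pow_add]
    have : Nat.log 2 N - l + l = Nat.log 2 N := by omega
    rw [this]
    exact Nat.pow_log_le_self 2 hN
  · rw [Nat.div_lt_iff_lt_mul h2, ← pow_add]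
    have : Nat.log 2 N - l + 1 + l = Nat.log 2 N + 1 := by omega
    rw [this]
    exact Nat.lt_pow_succ_log_self (by norm_num) N

/-- the numerical estimate -/
lemma num_bd {ν : ℝ} (h0 : 0 < ν) : ∃ K : ℕ, ∀ k : ℕ, K ≤ k →
    (2 * (k : ℝ) + 3) * (2 : ℝ) ^ (3 * (ν / 1000) * (2 * (k : ℝ) + 2) + 2) *
      (2 : ℝ) ^ (-(ν / 16 * (k : ℝ))) ≤ (2 : ℝ) ^ (-(ν / 32 * (k : ℝ))) := by
  have h2 : (0 : ℝ) < 2 := by norm_num
  -- (2k+3) * 2^(...)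
  have ht : Filter.Tendsto (fun k : ℕ => (k : ℝ) ^ 1 * (2 ^ (-(ν / 100)) : ℝ) ^ k) Filter.atTop
      (nhds 0) := by
    apply tendsto_pow_const_mul_const_pow_of_lt_one 1 (by positivity)
    apply Real.rpow_lt_one_of_one_lt_of_neg (by norm_num) (by linarith)
  have hpos : (0 : ℝ) < (2 : ℝ) ^ (-(6 * (ν / 1000) + 2)) / 5 := by positivity
  have hev := (ht.eventually (gt_mem_nhds hpos))
  obtain ⟨K, hK⟩ := Filter.eventually_atTop.1 hev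
  refine ⟨K + 1, fun k hk => ?_⟩
  have h1 := hK k (by omega)
  have hk1 : (1 : ℝ) ≤ k := by exact_mod_cast (by omega : 1 ≤ k)
  rw [pow_one, ← Real.rpow_natCast, ← Real.rpow_mul h2.le] at h1
  have e1 : (2 : ℝ) ^ (3 * (ν / 1000) * (2 * (k : ℝ) + 2) + 2) =
      (2 : ℝ) ^ (6 * (ν / 1000) * (k : ℝ)) * (2 : ℝ) ^ (6 * (ν / 1000) + 2) := by
    rw [← Real.rpow_add h2]; congr 1; ring
  have e2 : (2 : ℝ) ^ (-(ν / 16 * (k : ℝ))) = (2 : ℝ) ^ (-(ν / 32 * (k : ℝ))) *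
      (2 : ℝ) ^ (-(ν / 32 * (k : ℝ))) := by
    rw [← Real.rpow_add h2]; congr 1; ring
  have e3 : (2 : ℝ) ^ (6 * (ν / 1000) * (k : ℝ)) * (2 : ℝ) ^ (-(ν / 32 * (k : ℝ))) ≤
      (2 : ℝ) ^ (-(ν / 100) * (k : ℝ)) := by
    rw [← Real.rpow_add h2]
    apply Real.rpow_le_rpow_of_exponent_le (by norm_num)
    nlinarith
  have e4 : (2 : ℝ) ^ (6 * (ν / 1000) + 2) * (2 : ℝ) ^ (-(6 * (ν / 1000) + 2)) = 1 := by
    rw [← Real.rpow_add h2]; simp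
  rw [e1, e2]
  set A := (2 : ℝ) ^ (6 * (ν / 1000) * (k : ℝ)) with hA
  set B := (2 : ℝ) ^ (-(ν / 32 * (k : ℝ))) with hB
  set D := (2 : ℝ) ^ (6 * (ν / 1000) + 2) with hD
  set E := (2 : ℝ) ^ (-(6 * (ν / 1000) + 2)) with hE
  set F := (2 : ℝ) ^ (-(ν / 100) * (k : ℝ)) with hF
  have hB0 : 0 < B := by positivity
  have hA0 : 0 < A := by positivity
  have hD0 : 0 < D := by positivity
  have hF0 : 0 < F := by positivity
  have h5 : 5 * (k * F) * D ≤ 1 := by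
    calc 5 * (k * F) * D ≤ 5 * (E / 5) * D := by
          apply mul_le_mul_of_nonneg_right _ hD0.le
          linarith
      _ = D * E := by ring
      _ = 1 := e4
  calc (2 * (k : ℝ) + 3) * (A * D) * (B * B) = ((2 * (k : ℝ) + 3) * (A * B) * D) * B := by ring
    _ ≤ ((5 * k) * F * D) * B := by
        apply mul_le_mul_of_nonneg_right _ hB0.le
        apply mul_le_mul_of_nonneg_right _ hD0.le
        apply mul_le_mul _ e3 (by positivity) (by positivity)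
        linarith
    _ = (5 * (k * F) * D) * B := by ring
    _ ≤ 1 * B := mul_le_mul_of_nonneg_right h5 hB0.le
    _ = B := one_mul B

lemma rough_src {c ν : ℝ} (hc : 0 < c) (hν : ν ≤ c / 2) {k₁ N p : ℕ} (hs : Src c ν k₁ N p) :
    Rough ((2 : ℝ) ^ (ν * (Nat.log 2 N : ℝ))) N := by
  obtain ⟨hN, hk, hB, hp, hpN, hlo, hup, hR⟩ := hs
  intro r hr hrN
  have hdiv : N = p * (N / p) := (Nat.mul_div_cancel' hpN).symm
  rw [hdiv] at hrN
  rcases (hr.dvd_mul).1 hrN with h | h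
  · have : r = p := (Nat.prime_dvd_prime_iff_eq hr hp).1 h
    subst this
    refine le_trans ?_ hlo.le
    apply Real.rpow_le_rpow_of_exponent_le (by norm_num)
    have : (0 : ℝ) ≤ (Nat.log 2 N : ℝ) := Nat.cast_nonneg _
    nlinarith
  · exact hR r hr h

theorem sy2 : S_SY2 := by
  classical
  intro RH hBB hCL c ν hc hc1 hν hνc
  have hν1 : ν ≤ 1 := by linarith
  obtain ⟨K₁, hK₁⟩ := hBB RH (ν / 1000) (by positivity)
  obtain ⟨K₂, hK₂⟩ := hCL (ν / 1000) c ν (ν / 8) (by positivity) hc (by linarith) (by linarith) hν hν1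
    (by positivity)
  obtain ⟨K₃, hK₃⟩ := num_bd hν
  refine ⟨K₁ + 2 * K₂ + 2 * K₃ + 4, fun k₁ k j hk₁ hj => ?_⟩
  set l := ll ν k₁ k with hl
  have hlk : l ≤ k := ll_le hν hν1 k₁ k
  set T := (blk l j).filter (fun n => ∃ N p : ℕ, Src c ν k₁ N p ∧ p ∣ n ∧
      2 ^ l ≤ p ∧ ¬ (N ∣ n ∧ (n : ℝ) < (2 : ℝ) ^ (ν / 8 * (k : ℝ)) * N)) with hT
  rcases T.eq_empty_or_nonempty with h0 | ⟨n₀, hn₀⟩
  · rw [h0]; simp; positivity
  -- a bound for `h`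
  have hscale : ∀ n ∈ T, ∀ N p : ℕ, Src c ν k₁ N p → p ∣ n → Nat.log 2 N < 2 * (k + 1) := by
    intro n hn N p hs hpn
    obtain ⟨hN, hk, hB, hp, hpN, hlo, hup, hR⟩ := hs
    have hnb : n ∈ blk l j := (mem_filter.1 hn).1
    rw [blk_eq, mem_Ico] at hnb
    have hnlt : n < 2 ^ (k + 1) := lt_of_lt_of_le hnb.2 (blk_up hlk hj)
    have hn0 : 0 < n := by
      have := blk_low hlk hj
      have h2 : 0 < 2 ^ k := by positivity
      omega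
    have hpn' : p < 2 ^ (k + 1) := lt_of_le_of_lt (Nat.le_of_dvd hn0 hpn) hnlt
    have h3 : (2 : ℝ) ^ ((1 / 2 + c / 2) * (Nat.log 2 N : ℝ)) < (2 : ℝ) ^ ((k + 1 : ℕ) : ℝ) := by
      refine lt_trans hlo ?_
      rw [Real.rpow_natCast]
      exact_mod_cast hpn'
    have h4 := (Real.rpow_lt_rpow_left_iff (by norm_num : (1 : ℝ) < 2)).1 h3
    have h5 : (0 : ℝ) ≤ (Nat.log 2 N : ℝ) := Nat.cast_nonneg _
    have h6 : ((Nat.log 2 N : ℕ) : ℝ) < ((2 * (k + 1) : ℕ) : ℝ) := by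
      push_cast at h4 ⊢
      nlinarith
    exact_mod_cast h6
  have hkbig : k₁ < 2 * (k + 1) := by
    obtain ⟨N, p, hs, hpn, hp2, hres⟩ := (mem_filter.1 hn₀).2
    have := hscale n₀ hn₀ N p hs hpn
    have h2 := hs.2.1
    omega
  -- the covering
  set U : ℕ → ℕ → Finset ℕ := fun h j₀ =>
    (Ico (j * 2 ^ l) (j * 2 ^ l + 2 ^ l)).filter (fun n =>
      ∃ N ∈ Ico (j₀ * 2 ^ ll ν k₁ h) (j₀ * 2 ^ ll ν k₁ h + 2 ^ ll ν k₁ h),
        Rough ((2 : ℝ) ^ (ν * (h : ℝ))) N ∧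
        (∃ g : ℕ, g ∣ n ∧ g ∣ N ∧
          max (((2 ^ l : ℕ) : ℝ)) ((2 : ℝ) ^ ((1 / 2 + c / 2) * (h : ℝ))) ≤ (g : ℝ)) ∧
        ¬ (N ∣ n ∧ (n : ℝ) < (2 : ℝ) ^ (ν / 8 * (k : ℝ)) * N)) with hU
  have hcov : T ⊆ (Icc k₁ (2 * k + 2)).biUnion (fun h =>
      ((idx h (ll ν k₁ h)).filter (fun j₀ => Bad h (ll ν k₁ h) j₀)).biUnion (fun j₀ => U h j₀)) := by
    intro n hn
    obtain ⟨hnb, N, p, hs, hpn, hp2, hres⟩ := mem_filter.1 hn
    have h1 := hscale n hn N p hs hpn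
    have hrough := rough_src hc hνc hs
    obtain ⟨hN, hk, hB, hp, hpN, hlo, hup, hR⟩ := hs
    rw [mem_biUnion]
    refine ⟨Nat.log 2 N, mem_Icc.2 ⟨hk, by omega⟩, ?_⟩
    rw [mem_biUnion]
    refine ⟨N / 2 ^ ll ν k₁ (Nat.log 2 N), ?_, ?_⟩
    · rw [mem_filter]
      exact ⟨mem_idx_self hN (ll_le hν hν1 _ _), hB⟩
    · rw [hU, mem_filter]
      refine ⟨?_, N, ?_, hrough, ⟨p, hpn, hpN, ?_⟩, hres⟩
      · rw [← blk_eq]; exact hnb
      · rw [← blk_eq]; exact mem_blk_self _ _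
      · apply max_le _ hlo.le
        exact_mod_cast hp2
  -- bounds
  have hcard : ∀ h ∈ Icc k₁ (2 * k + 2), ∀ j₀ ∈ (idx h (ll ν k₁ h)).filter
      (fun j₀ => Bad h (ll ν k₁ h) j₀), ((U h j₀).card : ℝ) ≤
        2 ^ l * (2 : ℝ) ^ (-(ν / 16 * (k : ℝ))) := by
    intro h hh j₀ hj₀
    rw [mem_Icc] at hh
    have hj₀' := (mem_filter.1 hj₀).1
    have hlh : ll ν k₁ h ≤ h := ll_le hν hν1 k₁ h
    have := hK₂ k (j * 2 ^ l) (2 ^ l) h (j₀ * 2 ^ ll ν k₁ h) (2 ^ ll ν k₁ h) (by omega)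
      (blk_low hlk hj) (blk_up hlk hj) (blk_low hlh hj₀') (blk_up hlh hj₀') ?_ ?_
      (max (((2 ^ l : ℕ) : ℝ)) ((2 : ℝ) ^ ((1 / 2 + c / 2) * (h : ℝ)))) (le_max_left _ _)
      (le_max_right _ _)
    · have e : min (ν / 8) (min (ν / 4) (c / 10)) / 2 = ν / 16 := by
        rw [min_eq_left]
        · ring
        · apply le_min
          · linarith
          · linarith
      rw [e] at this
      rw [hU]
      push_cast at this ⊢
      exact this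
    · push_cast
      rw [← Real.rpow_natCast 2 l]
      apply Real.rpow_le_rpow_of_exponent_le (by norm_num)
      exact ll_lower hν k₁ k
    · push_cast
      rw [← Real.rpow_natCast 2 (ll ν k₁ h)]
      apply Real.rpow_le_rpow_of_exponent_le (by norm_num)
      exact ll_upper hν1 hh.1
  have hR : ∀ h ∈ Icc k₁ (2 * k + 2), ((((idx h (ll ν k₁ h)).filter
      (fun j₀ => Bad h (ll ν k₁ h) j₀)).card : ℕ) : ℝ) ≤
        (2 : ℝ) ^ (3 * (ν / 1000) * (2 * (k : ℝ) + 2) + 2) := by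
    intro h hh
    rw [mem_Icc] at hh
    refine le_trans (hK₁ h (ll ν k₁ h) (by omega) (ll_le hν hν1 _ _)) ?_
    apply Real.rpow_le_rpow_of_exponent_le (by norm_num)
    have h1 := ll_lower hν k₁ h
    have h2 : (h : ℝ) ≤ 2 * (k : ℝ) + 2 := by exact_mod_cast hh.2
    nlinarith
  have hB0 : (0 : ℝ) ≤ 2 ^ l * (2 : ℝ) ^ (-(ν / 16 * (k : ℝ))) := by positivity
  calc (T.card : ℝ) ≤ ((((Icc k₁ (2 * k + 2)).biUnion (fun h =>
      ((idx h (ll ν k₁ h)).filter (fun j₀ => Bad h (ll ν k₁ h) j₀)).biUnion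
        (fun j₀ => U h j₀))).card : ℕ) : ℝ) := by exact_mod_cast card_le_card hcov
    _ ≤ ((∑ h ∈ Icc k₁ (2 * k + 2), ((((idx h (ll ν k₁ h)).filter
          (fun j₀ => Bad h (ll ν k₁ h) j₀)).biUnion (fun j₀ => U h j₀)).card) : ℕ) : ℝ) := by
        exact_mod_cast card_biUnion_le
    _ = ∑ h ∈ Icc k₁ (2 * k + 2), (((((idx h (ll ν k₁ h)).filter
          (fun j₀ => Bad h (ll ν k₁ h) j₀)).biUnion (fun j₀ => U h j₀)).card : ℕ) : ℝ) := by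
        push_cast; rfl
    _ ≤ ∑ h ∈ Icc k₁ (2 * k + 2), (2 : ℝ) ^ (3 * (ν / 1000) * (2 * (k : ℝ) + 2) + 2) *
          (2 ^ l * (2 : ℝ) ^ (-(ν / 16 * (k : ℝ)))) := by
        apply sum_le_sum
        intro h hh
        calc (((((idx h (ll ν k₁ h)).filter
          (fun j₀ => Bad h (ll ν k₁ h) j₀)).biUnion (fun j₀ => U h j₀)).card : ℕ) : ℝ)
            ≤ ((∑ j₀ ∈ (idx h (ll ν k₁ h)).filter (fun j₀ => Bad h (ll ν k₁ h) j₀),
                (U h j₀).card : ℕ) : ℝ) := by exact_mod_cast card_biUnion_le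
          _ = ∑ j₀ ∈ (idx h (ll ν k₁ h)).filter (fun j₀ => Bad h (ll ν k₁ h) j₀),
                ((U h j₀).card : ℝ) := by push_cast; rfl
          _ ≤ ∑ j₀ ∈ (idx h (ll ν k₁ h)).filter (fun j₀ => Bad h (ll ν k₁ h) j₀),
                (2 ^ l * (2 : ℝ) ^ (-(ν / 16 * (k : ℝ)))) := sum_le_sum (hcard h hh)
          _ = ((((idx h (ll ν k₁ h)).filter (fun j₀ => Bad h (ll ν k₁ h) j₀)).card : ℕ) : ℝ) *
                (2 ^ l * (2 : ℝ) ^ (-(ν / 16 * (k : ℝ)))) := by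
              rw [sum_const, nsmul_eq_mul]
          _ ≤ _ := mul_le_mul_of_nonneg_right (hR h hh) hB0
    _ = ((Icc k₁ (2 * k + 2)).card : ℝ) * ((2 : ℝ) ^ (3 * (ν / 1000) * (2 * (k : ℝ) + 2) + 2) *
          (2 ^ l * (2 : ℝ) ^ (-(ν / 16 * (k : ℝ))))) := by rw [sum_const, nsmul_eq_mul]
    _ ≤ (2 * (k : ℝ) + 3) * ((2 : ℝ) ^ (3 * (ν / 1000) * (2 * (k : ℝ) + 2) + 2) *
          (2 ^ l * (2 : ℝ) ^ (-(ν / 16 * (k : ℝ))))) := by
        apply mul_le_mul_of_nonneg_right _ (by positivity)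
        rw [Nat.card_Icc]
        have : 2 * k + 2 + 1 - k₁ ≤ 2 * k + 3 := by omega
        exact_mod_cast this
    _ = 2 ^ l * ((2 * (k : ℝ) + 3) * (2 : ℝ) ^ (3 * (ν / 1000) * (2 * (k : ℝ) + 2) + 2) *
          (2 : ℝ) ^ (-(ν / 16 * (k : ℝ)))) := by ring
    _ ≤ 2 ^ l * (2 : ℝ) ^ (-(ν / 32 * (k : ℝ))) := by
        apply mul_le_mul_of_nonneg_left _ (by positivity)
        exact hK₃ k (by omega)

end Pool.Agent.W402.MO
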