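import Pool.Agent.W402.MO.SY2
import Pool.Agent.H932R4.CMO.T3

/-!
# MO-MC: the small multiples of the special numbers
-/

set_option autoImplicit false

open Finset

namespace Pool.Agent.W402.MO

open Pool.Agent.W164.MO

lemma special_ge {c ν c₁ : ℝ} {k₀ k₁ : ℕ} {Od Sp : Set ℕ} {q : ℕ → ℕ} (hc : 0 < c)
    (hc1 : c ≤ 1 / 10) (hν : ν ≤ c / 2) (hs : Sys c ν c₁ k₀ k₁ Od Sp q) {N : ℕ} (hN : N ∈ Sp) :
    2 ^ k₀ ≤ q N := by
  have h1 := hs.sp_low N hN
  have h2 := hs.sp_scale N hN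
  have h3 := hs.k01
  have h4 : (k₁ : ℝ) ≤ Nat.log 2 N := by exact_mod_cast h2
  have h5 : (k₀ : ℝ) ≤ (1 / 2 + c / 2) * (Nat.log 2 N : ℝ) := by
    have : (0 : ℝ) ≤ k₁ := Nat.cast_nonneg _
    nlinarith
  have h6 : (2 : ℝ) ^ (k₀ : ℝ) < q N :=
    lt_of_le_of_lt (Real.rpow_le_rpow_of_exponent_le (by norm_num) h5) h1
  rw [Real.rpow_natCast] at h6
  exact_mod_cast h6.le

lemma rough_sp {c ν c₁ : ℝ} {k₀ k₁ : ℕ} {Od Sp : Set ℕ} {q : ℕ → ℕ}
    (hν : ν ≤ c / 2) (hs : Sys c ν c₁ k₀ k₁ Od Sp q) {N : ℕ} (hN : N ∈ Sp) :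
    Rough ((2 : ℝ) ^ (ν * (Nat.log 2 N : ℝ))) N := by
  obtain ⟨hN0, hp, hpN⟩ := hs.sp_prime N hN
  have hlo := hs.sp_low N hN
  have hR := hs.sp_rough N hN
  intro r hr hrN
  have hdiv : N = q N * (N / q N) := (Nat.mul_div_cancel' hpN).symm
  rw [hdiv] at hrN
  rcases (hr.dvd_mul).1 hrN with h | h
  · have : r = q N := (Nat.prime_dvd_prime_iff_eq hr hp).1 h
    subst this
    refine le_trans ?_ hlo.le
    apply Real.rpow_le_rpow_of_exponent_le (by norm_num)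
    have : (0 : ℝ) ≤ (Nat.log 2 N : ℝ) := Nat.cast_nonneg _
    nlinarith
  · exact hR r hr h

lemma wt_nonneg (P₀ : ℕ) (κ₀ : ℝ) (S : Set ℕ) (p : ℕ) : 0 ≤ wt P₀ κ₀ S p := by
  unfold wt
  split_ifs <;> positivity

lemma cm_nonneg {w : ℕ → ℝ} (h : ∀ p, 0 ≤ w p) (n : ℕ) : 0 ≤ cm w n := by
  unfold cm
  apply List.prod_nonneg
  intro x hx
  rw [List.mem_map] at hx
  obtain ⟨p, _, rfl⟩ := hx
  exact h p

lemma wt_le_half {c ν c₁ : ℝ} {k₀ k₁ : ℕ} {Od Sp : Set ℕ} {q : ℕ → ℕ} (hc : 0 < c)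
    (hc1 : c ≤ 1 / 10) (hν0 : 0 < ν) (hν : ν ≤ c / 2) (hs : Sys c ν c₁ k₀ k₁ Od Sp q)
    (hk : 2 ≤ k₀) (p : ℕ) (hp : p.Prime) :
    wt (2 ^ k₀) (ν / 1000) (q '' Sp) p ≤ p / 2 := by
  have hp0 : (0 : ℝ) < p := by exact_mod_cast hp.pos
  have h4 : 4 ≤ 2 ^ k₀ := by
    calc 4 = 2 ^ 2 := by norm_num
      _ ≤ 2 ^ k₀ := Nat.pow_le_pow_right (by norm_num) hk
  unfold wt
  split_ifs with h1 h2
  · obtain ⟨N, hN, rfl⟩ := h1
    have h5 := special_ge hc hc1 hν hs hN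
    have h6 : (4 : ℝ) ≤ q N := by exact_mod_cast (le_trans h4 h5)
    have h7 : ((q N : ℕ) : ℝ) ^ (ν / 1000) ≤ ((q N : ℕ) : ℝ) ^ (1 / 2 : ℝ) :=
      Real.rpow_le_rpow_of_exponent_le (by linarith) (by linarith)
    have h8 : ((q N : ℕ) : ℝ) ^ (1 / 2 : ℝ) ≤ (q N : ℝ) / 2 := by
      rw [← Real.sqrt_eq_rpow]
      rw [Real.sqrt_le_left (by positivity)]
      nlinarith
    linarith
  · have h5 : (4 : ℝ) ≤ p := by exact_mod_cast (le_trans h4 h2)
    have h6 : 1 ≤ Real.log p := by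
      rw [Real.le_log_iff_exp_le hp0]
      have := Real.exp_one_lt_d9
      linarith
    rw [div_le_iff₀ (by positivity)]
    nlinarith
  · positivity

lemma geom_tail {r : ℝ} (h0 : 0 < r) (h1 : r < 1) (a b : ℕ) :
    ∑ i ∈ Ico a b, r ^ i ≤ r ^ a / (1 - r) := by
  rcases le_or_gt a b with h | h
  · rw [geom_sum_Ico' h1.ne h]
    apply div_le_div_of_nonneg_right _ (by linarith)
    have : 0 < r ^ b := by positivity
    linarith
  · rw [Ico_eq_empty (by omega), sum_empty]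
    apply div_nonneg (by positivity) (by linarith)

lemma sum_biUnion_le' {ι : Type} [DecidableEq ι] (s : Finset ι) (t : ι → Finset ℕ) (f : ℕ → ℝ)
    (hf : ∀ x, 0 ≤ f x) : ∑ x ∈ s.biUnion t, f x ≤ ∑ i ∈ s, ∑ x ∈ t i, f x := by
  induction s using Finset.induction_on with
  | empty => simp
  | insert a s ha ih =>
    rw [biUnion_insert, sum_insert ha]
    have h1 := sum_union_inter (s₁ := t a) (s₂ := s.biUnion t) (f := f)
    have h2 : 0 ≤ ∑ x ∈ t a ∩ s.biUnion t, f x := sum_nonneg (fun x _ => hf x)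
    linarith

lemma wt_sum_small (c ν c₁ τ : ℝ) (hc : 0 < c) (hc1 : c ≤ 1 / 10) (hν0 : 0 < ν) (hν : ν ≤ c / 2)
    (hτ : 0 < τ) : ∃ K : ℕ, ∀ (k₀ k₁ : ℕ) (Od Sp : Set ℕ) (q : ℕ → ℕ), K ≤ k₀ →
      Sys c ν c₁ k₀ k₁ Od Sp q → ∀ M : ℕ,
        ∑ p ∈ (Icc 2 M).filter Nat.Prime, wt (2 ^ k₀) (ν / 1000) (q '' Sp) p / p ≤ τ := by
  classical
  have h2 : (0 : ℝ) < 2 := by norm_num
  set r : ℝ := (2 : ℝ) ^ (-(c / 5)) with hr
  have hr0 : 0 < r := by positivity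
  have hr1 : r < 1 := Real.rpow_lt_one_of_one_lt_of_neg (by norm_num) (by linarith)
  have ht1 : Filter.Tendsto (fun k : ℕ => r ^ k / (1 - r)) Filter.atTop (nhds 0) := by
    have := (tendsto_pow_atTop_nhds_zero_of_lt_one hr0.le hr1).div_const (1 - r)
    simpa using this
  obtain ⟨K₁, hK₁⟩ := Filter.eventually_atTop.1 (ht1.eventually (gt_mem_nhds (half_pos hτ)))
  obtain ⟨K₂, hK₂⟩ := exists_nat_gt (4 / τ)
  refine ⟨K₁ + K₂ + 3, fun k₀ k₁ Od Sp q hk hs M => ?_⟩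
  -- the pointwise bound
  have hpt : ∀ p ∈ (Icc 2 M).filter Nat.Prime, wt (2 ^ k₀) (ν / 1000) (q '' Sp) p / p ≤
      (if p ∈ q '' Sp then (p : ℝ) ^ (ν / 1000 - 1) else 0) +
      (if 2 ^ k₀ ≤ p then Pool.Agent.H932R4.CMO.T3X.g p else 0) := by
    intro p hp
    rw [mem_filter, mem_Icc] at hp
    have hp0 : (0 : ℝ) < p := by exact_mod_cast hp.2.pos
    unfold wt Pool.Agent.H932R4.CMO.T3X.g
    split_ifs with ha hb hb
    · rw [Real.rpow_sub_one hp0.ne']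
      have : (0 : ℝ) ≤ 1 / (p * Real.log p ^ 2) := by positivity
      linarith
    · rw [Real.rpow_sub_one hp0.ne']
      simp
    · rw [zero_add, div_div, mul_comm]
    · simp
  have hS : ∑ p ∈ (Icc 2 M).filter Nat.Prime,
      (if p ∈ q '' Sp then (p : ℝ) ^ (ν / 1000 - 1) else 0) ≤ τ / 2 := by
    rw [← sum_filter]
    have hcov : ((Icc 2 M).filter Nat.Prime).filter (fun p => p ∈ q '' Sp) ⊆
        (Ico k₀ (M + 1)).biUnion (fun i =>
          (Ico (2 ^ i) (2 ^ (i + 1))).filter (fun p => p ∈ q '' Sp)) := by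
      intro p hp
      rw [mem_filter, mem_filter, mem_Icc] at hp
      obtain ⟨⟨⟨hp2, hpM⟩, hpp⟩, hpS⟩ := hp
      rw [mem_biUnion]
      have hge : 2 ^ k₀ ≤ p := by
        obtain ⟨N, hN, rfl⟩ := hpS
        exact special_ge hc hc1 hν hs hN
      refine ⟨Nat.log 2 p, ?_, ?_⟩
      · rw [mem_Ico]
        constructor
        · exact Nat.le_log_of_pow_le (by norm_num) hge
        · have h3 : Nat.log 2 p < p := Nat.log_lt_self 2 (by omega)
          omega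
      · rw [mem_filter, mem_Ico]
        exact ⟨⟨Nat.pow_log_le_self 2 (by omega), Nat.lt_pow_succ_log_self (by norm_num) p⟩, hpS⟩
    calc ∑ p ∈ ((Icc 2 M).filter Nat.Prime).filter (fun p => p ∈ q '' Sp),
          (p : ℝ) ^ (ν / 1000 - 1)
        ≤ ∑ p ∈ (Ico k₀ (M + 1)).biUnion (fun i =>
          (Ico (2 ^ i) (2 ^ (i + 1))).filter (fun p => p ∈ q '' Sp)),
            (p : ℝ) ^ (ν / 1000 - 1) := by
          apply sum_le_sum_of_subset_of_nonneg hcov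
          intro i _ _
          positivity
      _ ≤ ∑ i ∈ Ico k₀ (M + 1), ∑ p ∈ (Ico (2 ^ i) (2 ^ (i + 1))).filter (fun p => p ∈ q '' Sp),
            (p : ℝ) ^ (ν / 1000 - 1) := by
          apply sum_biUnion_le'
          intro x
          positivity
      _ ≤ ∑ i ∈ Ico k₀ (M + 1), r ^ i := by
          apply sum_le_sum
          intro i hi
          calc ∑ p ∈ (Ico (2 ^ i) (2 ^ (i + 1))).filter (fun p => p ∈ q '' Sp),
                (p : ℝ) ^ (ν / 1000 - 1)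
              ≤ ∑ p ∈ (Ico (2 ^ i) (2 ^ (i + 1))).filter (fun p => p ∈ q '' Sp),
                ((2 : ℝ) ^ ((ν / 1000 - 1) * (i : ℝ))) := by
                apply sum_le_sum
                intro p hp
                rw [mem_filter, mem_Ico] at hp
                have h3 : (2 : ℝ) ^ (i : ℝ) ≤ p := by
                  rw [Real.rpow_natCast]; exact_mod_cast hp.1.1
                calc (p : ℝ) ^ (ν / 1000 - 1) ≤ ((2 : ℝ) ^ (i : ℝ)) ^ (ν / 1000 - 1) :=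
                      Real.rpow_le_rpow_of_nonpos (by positivity) h3 (by linarith)
                  _ = (2 : ℝ) ^ ((ν / 1000 - 1) * (i : ℝ)) := by
                      rw [← Real.rpow_mul h2.le]; congr 1; ring
            _ = (((Ico (2 ^ i) (2 ^ (i + 1))).filter (fun p => p ∈ q '' Sp)).card : ℝ) *
                ((2 : ℝ) ^ ((ν / 1000 - 1) * (i : ℝ))) := by rw [sum_const, nsmul_eq_mul]
            _ ≤ (2 : ℝ) ^ ((1 - c / 4) * (i : ℝ)) * ((2 : ℝ) ^ ((ν / 1000 - 1) * (i : ℝ))) := by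
                apply mul_le_mul_of_nonneg_right _ (by positivity)
                convert hs.sparse i
            _ ≤ r ^ i := by
                rw [hr, ← Real.rpow_natCast, ← Real.rpow_mul h2.le, ← Real.rpow_add h2]
                apply Real.rpow_le_rpow_of_exponent_le (by norm_num)
                have : (0 : ℝ) ≤ i := Nat.cast_nonneg i
                nlinarith
      _ ≤ r ^ k₀ / (1 - r) := geom_tail hr0 hr1 _ _
      _ ≤ τ / 2 := (hK₁ k₀ (by omega)).le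
  have hG : ∑ p ∈ (Icc 2 M).filter Nat.Prime,
      (if 2 ^ k₀ ≤ p then Pool.Agent.H932R4.CMO.T3X.g p else 0) ≤ τ / 2 := by
    rw [← sum_filter]
    have h8 : 8 ≤ 2 ^ k₀ := by
      calc 8 = 2 ^ 3 := by norm_num
        _ ≤ 2 ^ k₀ := Nat.pow_le_pow_right (by norm_num) (by omega)
    calc ∑ p ∈ ((Icc 2 M).filter Nat.Prime).filter (fun p => 2 ^ k₀ ≤ p),
          Pool.Agent.H932R4.CMO.T3X.g p
        ≤ ∑ p ∈ Icc (2 ^ k₀) M, Pool.Agent.H932R4.CMO.T3X.g p := by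
          apply sum_le_sum_of_subset_of_nonneg
          · intro p hp
            rw [mem_filter, mem_filter, mem_Icc] at hp
            rw [mem_Icc]
            exact ⟨hp.2, hp.1.1.2⟩
          · intro i _ _
            exact Pool.Agent.H932R4.CMO.T3X.g_nonneg i
      _ ≤ 1 / Real.log (((2 ^ k₀ : ℕ) : ℝ) - 1) :=
          Pool.Agent.H932R4.CMO.T3X.g_sum' (2 ^ k₀) M (by omega)
      _ ≤ τ / 2 := by
          have h3 : (2 : ℝ) ^ (k₀ - 1) ≤ ((2 ^ k₀ : ℕ) : ℝ) - 1 := by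
            have : 2 ^ (k₀ - 1) + 1 ≤ 2 ^ k₀ := by
              have e : 2 ^ k₀ = 2 ^ (k₀ - 1) + 2 ^ (k₀ - 1) := by
                rw [← mul_two, ← pow_succ]; congr 1; omega
              have : 1 ≤ 2 ^ (k₀ - 1) := Nat.one_le_two_pow
              omega
            have h4 : ((2 ^ (k₀ - 1) + 1 : ℕ) : ℝ) ≤ ((2 ^ k₀ : ℕ) : ℝ) := by exact_mod_cast this
            push_cast at h4 ⊢
            linarith
          have h4 : Real.log ((2 : ℝ) ^ (k₀ - 1)) ≤ Real.log (((2 ^ k₀ : ℕ) : ℝ) - 1) :=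
            Real.log_le_log (by positivity) h3
          rw [Real.log_pow] at h4
          have h5 : (4 / τ : ℝ) ≤ ((k₀ - 1 : ℕ) : ℝ) := by
            refine le_trans hK₂.le ?_
            exact_mod_cast (by omega : K₂ ≤ k₀ - 1)
          have h6 : (1 / 2 : ℝ) ≤ Real.log 2 := by
            have := Real.log_two_gt_d9
            linarith
          have h7 : 2 / τ ≤ Real.log (((2 ^ k₀ : ℕ) : ℝ) - 1) := by
            refine le_trans ?_ h4
            calc 2 / τ = (4 / τ) * (1 / 2) := by ring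
              _ ≤ _ := by
                apply mul_le_mul h5 h6 (by norm_num) (by positivity)
          have h8 : 0 < 2 / τ := by positivity
          calc 1 / Real.log (((2 ^ k₀ : ℕ) : ℝ) - 1) ≤ 1 / (2 / τ) :=
                one_div_le_one_div_of_le h8 h7
            _ = τ / 2 := by field_simp
  calc ∑ p ∈ (Icc 2 M).filter Nat.Prime, wt (2 ^ k₀) (ν / 1000) (q '' Sp) p / p
      ≤ ∑ p ∈ (Icc 2 M).filter Nat.Prime, ((if p ∈ q '' Sp then (p : ℝ) ^ (ν / 1000 - 1) else 0) +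
          (if 2 ^ k₀ ≤ p then Pool.Agent.H932R4.CMO.T3X.g p else 0)) := sum_le_sum hpt
    _ = _ := sum_add_distrib
    _ ≤ τ := by linarith

/-- the number of the multiples -/
lemma mult_count {ν c c₁ C : ℝ} {E : ℕ} {k₀ k₁ : ℕ} {Od Sp : Set ℕ} {q : ℕ → ℕ} (hE : 1 ≤ E)
    (hC : 0 < C)
    (hRG : ∀ (z : ℝ) (X Y : ℕ), 2 ≤ z → z ^ E ≤ Y →
      open Classical in
      (((Ioc X (X + Y)).filter (fun n => Rough z n)).card : ℝ) ≤ C * Y / Real.log z)
    (hc : 0 < c) (hc1 : c ≤ 1 / 10) (hν0 : 0 < ν) (hν : ν ≤ c / 2)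
    (hs : Sys c ν c₁ k₀ k₁ Od Sp q) (ν' : ℝ) (hν' : 0 < ν') (h1 : ν' ≤ ν / 2)
    (h2 : ν' * E ≤ 1 / 4) (k j a : ℕ) (hk10 : 10 ≤ k) (hk : 1 ≤ ν' * k)
    (hj : j ∈ idx k (ll ν k₁ k)) (ha2 : 1 ≤ a) (ha : (a : ℝ) < (2 : ℝ) ^ (ν / 8 * (k : ℝ))) :
    (open Classical in
    ((((blk (ll ν k₁ k) j).filter (fun n => a ∣ n ∧ n / a ∈ Sp)).card : ℕ) : ℝ)) ≤
      C * (2 * (2 ^ ll ν k₁ k / a)) / (ν' * k * Real.log 2) := by
  classical
  have h20 : (0 : ℝ) < 2 := by norm_num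
  set l := ll ν k₁ k with hl
  have hlk : l ≤ k := ll_le hν0 (by linarith) k₁ k
  have hlow := ll_lower hν0 k₁ k
  rw [← hl] at hlow
  have hk10' : (10 : ℝ) ≤ k := by exact_mod_cast hk10
  have ha0 : (0 : ℝ) < a := by exact_mod_cast ha2
  set z : ℝ := (2 : ℝ) ^ (ν' * (k : ℝ)) with hz
  have hz2 : 2 ≤ z := by
    calc (2 : ℝ) = (2 : ℝ) ^ (1 : ℝ) := by simp
      _ ≤ z := Real.rpow_le_rpow_of_exponent_le (by norm_num) hk
  set X := (j * 2 ^ l - 1) / a with hX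
  set Y := 2 ^ l / a + 1 with hY
  have hjl : 2 ^ k ≤ j * 2 ^ l := blk_low hlk hj
  have h2k : 1 ≤ 2 ^ k := Nat.one_le_two_pow
  have hYl : (2 : ℝ) ^ l / a ≤ Y := by
    have h3 : 2 ^ l < a * (2 ^ l / a + 1) := Nat.lt_mul_div_succ _ (by omega)
    have h4 : ((2 ^ l : ℕ) : ℝ) < ((a * (2 ^ l / a + 1) : ℕ) : ℝ) := by exact_mod_cast h3
    rw [div_le_iff₀ ha0, hY]
    push_cast at h4 ⊢
    nlinarith
  have hYu : (Y : ℝ) ≤ 2 ^ l / a + 1 := by
    rw [hY]
    push_cast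
    have : ((2 ^ l / a : ℕ) : ℝ) ≤ ((2 ^ l : ℕ) : ℝ) / a := Nat.cast_div_le
    push_cast at this
    linarith
  have hfrac : (2 : ℝ) ^ ((k : ℝ) / 4) ≤ 2 ^ l / a := by
    rw [le_div_iff₀ ha0]
    calc (2 : ℝ) ^ ((k : ℝ) / 4) * a ≤ (2 : ℝ) ^ ((k : ℝ) / 4) * (2 : ℝ) ^ (ν / 8 * (k : ℝ)) :=
          mul_le_mul_of_nonneg_left ha.le (by positivity)
      _ = (2 : ℝ) ^ ((k : ℝ) / 4 + ν / 8 * (k : ℝ)) := by rw [← Real.rpow_add h20]
      _ ≤ (2 : ℝ) ^ (l : ℝ) := by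
          apply Real.rpow_le_rpow_of_exponent_le (by norm_num)
          nlinarith
      _ = 2 ^ l := by rw [Real.rpow_natCast]
  have hone : (1 : ℝ) ≤ 2 ^ l / a := by
    refine le_trans ?_ hfrac
    apply Real.one_le_rpow (by norm_num)
    positivity
  have hzE : z ^ E ≤ Y := by
    refine le_trans ?_ (le_trans hfrac hYl)
    rw [hz, ← Real.rpow_natCast, ← Real.rpow_mul h20.le]
    apply Real.rpow_le_rpow_of_exponent_le (by norm_num)
    nlinarith
  have hmain := hRG z X Y hz2 hzE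
  have hinj : ((blk l j).filter (fun n => a ∣ n ∧ n / a ∈ Sp)).card ≤
      ((Ioc X (X + Y)).filter (fun n => Rough z n)).card := by
    apply card_le_card_of_injOn (fun n => n / a)
    · intro n hn
      have hn' := mem_filter.1 (Finset.mem_coe.1 hn)
      obtain ⟨hb, ⟨N, hN⟩, hSp⟩ := hn'
      have hNa : n / a = N := by rw [hN]; exact Nat.mul_div_cancel_left _ (by omega)
      rw [blk_eq, mem_Ico] at hb
      show n / a ∈ ((((Ioc X (X + Y)).filter (fun n => Rough z n)) : Finset ℕ) : Set ℕ)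
      rw [Finset.mem_coe, mem_filter, mem_Ioc]
      rw [hNa] at hSp ⊢
      have hn2 : (2 : ℝ) ^ (k : ℝ) ≤ (n : ℝ) := by
        rw [Real.rpow_natCast]
        exact_mod_cast le_trans hjl hb.1
      refine ⟨⟨?_, ?_⟩, ?_⟩
      · rw [hX, Nat.div_lt_iff_lt_mul (by omega)]
        rw [mul_comm] at hN
        omega
      · by_contra hcon
        push Not at hcon
        have h3 : j * 2 ^ l - 1 < a * ((j * 2 ^ l - 1) / a + 1) := Nat.lt_mul_div_succ _ (by omega)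
        have h4 : 2 ^ l < a * (2 ^ l / a + 1) := Nat.lt_mul_div_succ _ (by omega)
        rw [← hX] at h3
        have h5 : a * (X + Y + 1) ≤ a * N := Nat.mul_le_mul_left _ hcon
        rw [hY] at h5
        have h6 : a * (X + (2 ^ l / a + 1) + 1) = a * (X + 1) + a * (2 ^ l / a + 1) := by ring
        omega
      · -- rough
        have hR := rough_sp hν hs hSp
        have hN0 : N ≠ 0 := (hs.sp_prime N hSp).1
        have hNlow : (2 : ℝ) ^ ((1 - ν / 8) * (k : ℝ)) < N := by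
          have h7 : (n : ℝ) = a * N := by exact_mod_cast hN
          have h8 : (2 : ℝ) ^ (k : ℝ) < (2 : ℝ) ^ (ν / 8 * (k : ℝ)) * N := by
            calc (2 : ℝ) ^ (k : ℝ) ≤ a * N := by rw [← h7]; exact hn2
              _ < _ := mul_lt_mul_of_pos_right ha (by exact_mod_cast Nat.pos_of_ne_zero hN0)
          have h9 : (2 : ℝ) ^ (k : ℝ) = (2 : ℝ) ^ (ν / 8 * (k : ℝ)) *
              (2 : ℝ) ^ ((1 - ν / 8) * (k : ℝ)) := by
            rw [← Real.rpow_add h20]; congr 1; ring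
          rw [h9] at h8
          exact lt_of_mul_lt_mul_left h8 (by positivity)
        have hlog : (1 - ν / 8) * (k : ℝ) < (Nat.log 2 N : ℝ) + 1 := by
          have h7 : (N : ℝ) < (2 : ℝ) ^ ((Nat.log 2 N : ℝ) + 1) := by
            have := Nat.lt_pow_succ_log_self (by norm_num : 1 < 2) N
            have h8 : (N : ℝ) < ((2 ^ (Nat.log 2 N + 1) : ℕ) : ℝ) := by exact_mod_cast this
            rw [show ((Nat.log 2 N : ℝ) + 1) = ((Nat.log 2 N + 1 : ℕ) : ℝ) by push_cast; ring,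
              Real.rpow_natCast]
            push_cast at h8 ⊢
            exact h8
          exact (Real.rpow_lt_rpow_left_iff (by norm_num : (1 : ℝ) < 2)).1 (lt_trans hNlow h7)
        intro r hr hrN
        refine le_trans ?_ (hR r hr hrN)
        apply Real.rpow_le_rpow_of_exponent_le (by norm_num)
        have h8 : (k : ℝ) / 2 ≤ (Nat.log 2 N : ℝ) := by nlinarith
        calc ν' * (k : ℝ) ≤ (ν / 2) * k := mul_le_mul_of_nonneg_right h1 (by positivity)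
          _ = ν * ((k : ℝ) / 2) := by ring
          _ ≤ ν * (Nat.log 2 N : ℝ) := mul_le_mul_of_nonneg_left h8 hν0.le
    · intro n hn m hm hnm
      have hn' := (mem_filter.1 (Finset.mem_coe.1 hn)).2.1
      have hm' := (mem_filter.1 (Finset.mem_coe.1 hm)).2.1
      have h3 : n / a = m / a := hnm
      rw [← Nat.div_mul_cancel hn', ← Nat.div_mul_cancel hm', h3]
  have hlogz : Real.log z = ν' * k * Real.log 2 := by rw [hz, Real.log_rpow h20]
  have hlog2 : 0 < Real.log 2 := Real.log_pos (by norm_num)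
  calc ((((blk l j).filter (fun n => a ∣ n ∧ n / a ∈ Sp)).card : ℕ) : ℝ)
      ≤ (((Ioc X (X + Y)).filter (fun n => Rough z n)).card : ℝ) := by exact_mod_cast hinj
    _ ≤ C * Y / Real.log z := by convert hmain
    _ = C * Y / (ν' * k * Real.log 2) := by rw [hlogz]
    _ ≤ C * (2 * (2 ^ l / a)) / (ν' * k * Real.log 2) := by
        apply div_le_div_of_nonneg_right _ (by positivity)
        apply mul_le_mul_of_nonneg_left _ hC.le
        linarith

theorem mc : S_RG → S_EU → S_MC := by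
  classical
  rintro ⟨E, C, hE, hC, hRG⟩ hEU c ν c₁ κ hc hc1 hν0 hν hc₁ hκ
  have hlog2 : 0 < Real.log 2 := Real.log_pos (by norm_num)
  have hE' : (1 : ℝ) ≤ E := by exact_mod_cast hE
  set ν' : ℝ := min (ν / 2) (1 / (4 * E)) with hν'
  have hν'0 : 0 < ν' := lt_min (by positivity) (by positivity)
  have hν'1 : ν' ≤ ν / 2 := min_le_left _ _
  have hν'2 : ν' * E ≤ 1 / 4 := by
    calc ν' * E ≤ (1 / (4 * E)) * E := mul_le_mul_of_nonneg_right (min_le_right _ _) (by positivity)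
      _ = 1 / 4 := by field_simp
  set D : ℝ := 8 * C / (ν' * Real.log 2) with hD
  have hD0 : 0 < D := by positivity
  set τ : ℝ := min (1 / 4) (κ / (4 * D)) with hτ
  have hτ0 : 0 < τ := lt_min (by norm_num) (by positivity)
  obtain ⟨K₁, hK₁⟩ := wt_sum_small c ν c₁ τ hc hc1 hν0 hν hτ0
  obtain ⟨K₂, hK₂⟩ := exists_nat_gt (1 / ν')
  refine ⟨K₁ + K₂ + 10, fun k₀ k₁ Od Sp q hk₀ hs k j hk hj => ?_⟩
  have hkν : 1 ≤ ν' * k := by
    have h1 : 1 / ν' ≤ (k : ℝ) := by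
      refine le_trans hK₂.le ?_
      exact_mod_cast (by omega : K₂ ≤ k)
    rw [div_le_iff₀ hν'0] at h1
    linarith
  have hk10 : (10 : ℝ) ≤ k := by exact_mod_cast (by omega : 10 ≤ k)
  set l := ll ν k₁ k with hl
  have hlk : l ≤ k := ll_le hν0 (by linarith) k₁ k
  have hlog2' : (0.69 : ℝ) < Real.log 2 := by
    have := Real.log_two_gt_d9
    linarith
  have hcm0 : ∀ a, 0 ≤ cm (wt (2 ^ k₀) (ν / 1000) (q '' Sp)) a :=
    fun a => cm_nonneg (fun p => wt_nonneg _ _ _ p) a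
  have hinner : ∀ a ∈ (Icc 2 (2 ^ k)).filter (fun a : ℕ => (a : ℝ) < (2 : ℝ) ^ (ν / 8 * (k : ℝ))),
      ∑ n ∈ (blk l j).filter (fun n => a ∣ n ∧ n / a ∈ Sp),
          sw ν k₀ Sp q a / (Real.log ((n / a : ℕ) : ℝ)) ^ 2 ≤
        (D * 2 ^ l / (k : ℝ) ^ 3) * (cm (wt (2 ^ k₀) (ν / 1000) (q '' Sp)) a / a) := by
    intro a ha
    rw [mem_filter, mem_Icc] at ha
    obtain ⟨⟨ha2, _⟩, ha3⟩ := ha
    have ha0 : (0 : ℝ) < a := by exact_mod_cast (by omega : 0 < a)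
    have hcount := mult_count hE hC hRG hc hc1 hν0 hν hs ν' hν'0 hν'1 hν'2 k j a (by omega)
      hkν hj (by omega) ha3
    have hterm : ∀ n ∈ (blk l j).filter (fun n => a ∣ n ∧ n / a ∈ Sp),
        sw ν k₀ Sp q a / (Real.log ((n / a : ℕ) : ℝ)) ^ 2 ≤
          cm (wt (2 ^ k₀) (ν / 1000) (q '' Sp)) a * (4 / (k : ℝ) ^ 2) := by
      intro n hn
      obtain ⟨hb, hdvd, hSp⟩ := mem_filter.1 hn
      rw [blk_eq, mem_Ico] at hb
      have hn2 : (2 : ℝ) ^ (k : ℝ) ≤ (n : ℝ) := by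
        rw [Real.rpow_natCast]
        exact_mod_cast le_trans (blk_low hlk hj) hb.1
      have hN0 : n / a ≠ 0 := (hs.sp_prime _ hSp).1
      have h7 : (n : ℝ) = a * ((n / a : ℕ) : ℝ) := by
        exact_mod_cast (Nat.mul_div_cancel' hdvd).symm
      have hNpos : (0 : ℝ) < ((n / a : ℕ) : ℝ) := by exact_mod_cast Nat.pos_of_ne_zero hN0
      have h8 : (2 : ℝ) ^ (k : ℝ) < (2 : ℝ) ^ (ν / 8 * (k : ℝ)) * ((n / a : ℕ) : ℝ) := by
        calc (2 : ℝ) ^ (k : ℝ) ≤ a * ((n / a : ℕ) : ℝ) := by rw [← h7]; exact hn2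
          _ < _ := mul_lt_mul_of_pos_right ha3 hNpos
      have h9 : (2 : ℝ) ^ (k : ℝ) = (2 : ℝ) ^ (ν / 8 * (k : ℝ)) *
          (2 : ℝ) ^ ((1 - ν / 8) * (k : ℝ)) := by
        rw [← Real.rpow_add (by norm_num)]; congr 1; ring
      rw [h9] at h8
      have h10 : (2 : ℝ) ^ ((1 - ν / 8) * (k : ℝ)) < ((n / a : ℕ) : ℝ) :=
        lt_of_mul_lt_mul_left h8 (by positivity)
      have h11 : (k : ℝ) / 2 ≤ Real.log ((n / a : ℕ) : ℝ) := by
        have h12 := Real.log_le_log (by positivity) h10.le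
        rw [Real.log_rpow (by norm_num)] at h12
        refine le_trans ?_ h12
        have h13 : (0.99 : ℝ) * k ≤ (1 - ν / 8) * k :=
          mul_le_mul_of_nonneg_right (by linarith) (by linarith)
        calc (k : ℝ) / 2 ≤ (0.99 * k) * 0.69 := by linarith
          _ ≤ ((1 - ν / 8) * k) * Real.log 2 :=
            mul_le_mul h13 hlog2'.le (by norm_num) (le_trans (by linarith) h13)
      have hlogpos : 0 < Real.log ((n / a : ℕ) : ℝ) := by linarith
      have h12 : (k : ℝ) ^ 2 / 4 ≤ (Real.log ((n / a : ℕ) : ℝ)) ^ 2 := by nlinarith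
      unfold sw
      rw [div_le_iff₀ (by positivity)]
      have h13 : 1 ≤ 4 / (k : ℝ) ^ 2 * (Real.log ((n / a : ℕ) : ℝ)) ^ 2 := by
        calc (1 : ℝ) = 4 / (k : ℝ) ^ 2 * ((k : ℝ) ^ 2 / 4) := by field_simp
          _ ≤ _ := mul_le_mul_of_nonneg_left h12 (by positivity)
      calc cm (wt (2 ^ k₀) (ν / 1000) (q '' Sp)) a
          = cm (wt (2 ^ k₀) (ν / 1000) (q '' Sp)) a * 1 := by ring
        _ ≤ cm (wt (2 ^ k₀) (ν / 1000) (q '' Sp)) a *
              (4 / (k : ℝ) ^ 2 * (Real.log ((n / a : ℕ) : ℝ)) ^ 2) :=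
            mul_le_mul_of_nonneg_left h13 (hcm0 a)
        _ = _ := by ring
    calc ∑ n ∈ (blk l j).filter (fun n => a ∣ n ∧ n / a ∈ Sp),
          sw ν k₀ Sp q a / (Real.log ((n / a : ℕ) : ℝ)) ^ 2
        ≤ ∑ n ∈ (blk l j).filter (fun n => a ∣ n ∧ n / a ∈ Sp),
            cm (wt (2 ^ k₀) (ν / 1000) (q '' Sp)) a * (4 / (k : ℝ) ^ 2) := sum_le_sum hterm
      _ = ((((blk l j).filter (fun n => a ∣ n ∧ n / a ∈ Sp)).card : ℕ) : ℝ) *
            (cm (wt (2 ^ k₀) (ν / 1000) (q '' Sp)) a * (4 / (k : ℝ) ^ 2)) := by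
          rw [sum_const, nsmul_eq_mul]
      _ ≤ (C * (2 * (2 ^ l / a)) / (ν' * k * Real.log 2)) *
            (cm (wt (2 ^ k₀) (ν / 1000) (q '' Sp)) a * (4 / (k : ℝ) ^ 2)) := by
          apply mul_le_mul_of_nonneg_right _ (mul_nonneg (hcm0 a) (by positivity))
          convert hcount
      _ = (D * 2 ^ l / (k : ℝ) ^ 3) * (cm (wt (2 ^ k₀) (ν / 1000) (q '' Sp)) a / a) := by
          rw [hD]
          field_simp
          ring
  have hpos : 0 ≤ D * 2 ^ l / (k : ℝ) ^ 3 := by positivity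
  have hEU' := hEU (wt (2 ^ k₀) (ν / 1000) (q '' Sp)) (2 ^ k) τ (fun p => wt_nonneg _ _ _ p)
    (fun p hp => wt_le_half hc hc1 hν0 hν hs (by omega) p hp) (min_le_left _ _)
    (hK₁ k₀ k₁ Od Sp q (by omega) hs (2 ^ k))
  calc ∑ a ∈ (Icc 2 (2 ^ k)).filter (fun a : ℕ => (a : ℝ) < (2 : ℝ) ^ (ν / 8 * (k : ℝ))),
        ∑ n ∈ (blk l j).filter (fun n => a ∣ n ∧ n / a ∈ Sp),
          sw ν k₀ Sp q a / (Real.log ((n / a : ℕ) : ℝ)) ^ 2
      ≤ ∑ a ∈ (Icc 2 (2 ^ k)).filter (fun a : ℕ => (a : ℝ) < (2 : ℝ) ^ (ν / 8 * (k : ℝ))),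
          (D * 2 ^ l / (k : ℝ) ^ 3) * (cm (wt (2 ^ k₀) (ν / 1000) (q '' Sp)) a / a) :=
        sum_le_sum hinner
    _ = (D * 2 ^ l / (k : ℝ) ^ 3) *
          ∑ a ∈ (Icc 2 (2 ^ k)).filter (fun a : ℕ => (a : ℝ) < (2 : ℝ) ^ (ν / 8 * (k : ℝ))),
            cm (wt (2 ^ k₀) (ν / 1000) (q '' Sp)) a / a := by rw [mul_sum]
    _ ≤ (D * 2 ^ l / (k : ℝ) ^ 3) *
          ∑ a ∈ Icc 2 (2 ^ k), cm (wt (2 ^ k₀) (ν / 1000) (q '' Sp)) a / a := by
        apply mul_le_mul_of_nonneg_left _ hpos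
        apply sum_le_sum_of_subset_of_nonneg (filter_subset _ _)
        intro a _ _
        exact div_nonneg (hcm0 a) (Nat.cast_nonneg a)
    _ ≤ (D * 2 ^ l / (k : ℝ) ^ 3) * (4 * τ) := mul_le_mul_of_nonneg_left hEU' hpos
    _ ≤ (D * 2 ^ l / (k : ℝ) ^ 3) * (4 * (κ / (4 * D))) := by
        apply mul_le_mul_of_nonneg_left _ hpos
        have := min_le_right (1 / 4) (κ / (4 * D))
        linarith
    _ = κ * 2 ^ l / (k : ℝ) ^ 3 := by field_simp

end Pool.Agent.W402.MO
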